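import Pool.Agent.V5helper56.DU.Stm

/-!
# Project DU, job NOO: the index computation with `p`-units
-/

set_option linter.style.haveILetI false
set_option linter.unusedSectionVars false
set_option linter.unusedVariables false

open NumberField Ideal Module IntermediateField Pool.Agent.W569.FM Pool.Agent.W571.FM Pool.Agent.R417.FK
open Pool.Agent.Helper832_EG
open scoped Pointwise nonZeroDivisors

namespace Pool.Agent.V5helper7.DU

open Pool.Agent.V5helper56.DU

section
variable {K L : Type} [Field K] [NumberField K] [Field L] [NumberField L] [Algebra K L] [IsGalois K L]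

/-- the number of infinite places -/
lemma card_inf {p : ℕ} (hp : p.Prime) (hinf : p ≠ 2 ∨ IsTotallyComplex K)
    (hcard : Nat.card Gal(L/K) = p) :
    Fintype.card (InfinitePlace L) = p * Fintype.card (InfinitePlace K) := by
  rcases hinf with h2 | h
  · haveI : IsUnramifiedAtInfinitePlaces K L := by
      refine IsUnramifiedAtInfinitePlaces_of_odd_card_aut ?_
      rw [hcard]
      exact hp.odd_of_ne_two h2
    have h4 := IsUnramifiedAtInfinitePlaces.card_infinitePlace K L
    have h5 : finrank K L = p := by rw [← IsGalois.card_aut_eq_finrank K L, hcard]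
    rw [h4, h5, mul_comm]
  · haveI : IsTotallyComplex L := isTotallyComplex_of_algebra K L
    have h1 := finrank_units K
    have h2 := finrank_units L
    have h3 : finrank ℚ L = finrank ℚ K * p := by
      rw [← Module.finrank_mul_finrank ℚ K L, ← IsGalois.card_aut_eq_finrank K L, hcard]
    have h5 := Pool.Agent.V5helper56.LI.rank_units K
    have h6 := Pool.Agent.V5helper56.LI.rank_units L
    rw [h5] at h1
    rw [h6, h3, ← h1] at h2
    have h4 : 2 * Fintype.card (InfinitePlace L) = 2 * (p * Fintype.card (InfinitePlace K)) := by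
      rw [h2]; ring
    omega

/-- the embedding of the `p`-units -/
lemma map_mem {p : ℕ} {u : Kˣ} (hu : u ∈ PU p K) :
    Units.map (algebraMap K L : K →* L) u ∈ PU p L := by
  obtain ⟨n, h1, h2⟩ := hu
  have key : ∀ x : K, IsIntegral ℤ ((p : K) ^ n * x) → IsIntegral ℤ ((p : L) ^ n * algebraMap K L x) := by
    intro x hx
    have h3 := hx.map ((algebraMap K L).toIntAlgHom)
    have h4 : ((algebraMap K L).toIntAlgHom) ((p : K) ^ n * x) = (p : L) ^ n * algebraMap K L x := by
      show algebraMap K L _ = _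
      rw [map_mul, map_pow, map_natCast]
    rwa [h4] at h3
  refine ⟨n, key _ h1, ?_⟩
  have h3 := key _ h2
  rw [← map_inv]
  exact h3

/-- the embedding of the `p`-units -/
noncomputable def eP (K L : Type) [Field K] [NumberField K] [Field L] [NumberField L] [Algebra K L]
    [IsGalois K L] (p : ℕ) : PU p K →* PU p L :=
  ((Units.map (algebraMap K L : K →* L)).comp (PU p K).subtype).codRestrict (PU p L)
    (fun u => map_mem u.2)

lemma eP_coe (p : ℕ) (v : PU p K) :
    (((eP K L p v : PU p L) : Lˣ) : L) = algebraMap K L ((v : Kˣ) : K) := rfl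

/-- a divisor of a power of `p` is a `p`-unit -/
lemma exists_PU {p : ℕ} (hp : p.Prime) {u : 𝓞 K} (hu : ∃ m : ℕ, u ∣ (p : 𝓞 K) ^ m) :
    ∃ v : PU p K, ((v : Kˣ) : K) = (u : K) := by
  obtain ⟨m, c, hc⟩ := hu
  have hpK : (p : K) ≠ 0 := by exact_mod_cast hp.ne_zero
  have hc' : (p : K) ^ m = (u : K) * (c : K) := by
    have := congrArg (fun x : 𝓞 K => (x : K)) hc
    simpa using this
  have hu0 : (u : K) ≠ 0 := by
    intro h
    rw [h, zero_mul] at hc'
    exact pow_ne_zero m hpK hc'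
  refine ⟨⟨Units.mk0 (u : K) hu0, m, ?_, ?_⟩, rfl⟩
  · have h1 : IsIntegral ℤ (((p : 𝓞 K) ^ m * u : 𝓞 K) : K) := RingOfIntegers.isIntegral_coe _
    simpa using h1
  · have h1 : IsIntegral ℤ ((c : 𝓞 K) : K) := RingOfIntegers.isIntegral_coe _
    have h2 : (p : K) ^ m * (((Units.mk0 (u : K) hu0)⁻¹ : Kˣ) : K) = c := by
      rw [Units.val_inv_eq_inv_val, Units.val_mk0, hc']
      field_simp
    rw [h2]
    exact h1

lemma isPow_iff {p : ℕ} {Q : Ideal (𝓞 K)} (hQ : Q.IsMaximal) (hpQ : (p : 𝓞 K) ∉ Q) (u : 𝓞 K)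
    (v : PU p K) (hv : ((v : Kˣ) : K) = (u : K)) :
    IsPow p Q v ↔ ∃ z : 𝓞 K, u - z ^ p ∈ Q := by
  constructor
  · rintro ⟨n, x, z, h1, h2⟩
    -- an inverse of `p` modulo `Q`
    obtain ⟨c, hc⟩ : ∃ c : 𝓞 K, c * p - 1 ∈ Q := by
      obtain ⟨c, q, hq, h⟩ := hQ.exists_inv hpQ
      refine ⟨c, ?_⟩
      have : c * (p : 𝓞 K) - 1 = -q := by rw [← h]; ring
      rw [this]
      exact Q.neg_mem hq
    have hx : x = (p : 𝓞 K) ^ (p * n) * u := by
      apply RingOfIntegers.ext
      rw [h1, hv]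
      simp
    refine ⟨z * c ^ n, ?_⟩
    have h3 : (c * (p : 𝓞 K)) ^ (p * n) - 1 ∈ Q := by
      have h4 : c * (p : 𝓞 K) - 1 ∣ (c * (p : 𝓞 K)) ^ (p * n) - 1 ^ (p * n) := sub_dvd_pow_sub_pow _ _ _
      rw [one_pow] at h4
      exact Q.mem_of_dvd h4 hc
    have e : u - (z * c ^ n) ^ p = c ^ (p * n) * (x - z ^ p) - u * ((c * (p : 𝓞 K)) ^ (p * n) - 1) := by
      rw [hx, mul_pow, mul_pow, ← pow_mul, mul_comm n p]
      ring
    rw [e]
    exact Q.sub_mem (Q.mul_mem_left _ h2) (Q.mul_mem_left _ h3)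
  · rintro ⟨z, hz⟩
    refine ⟨0, u, z, ?_, hz⟩
    rw [hv]
    simp

end

theorem t_NOO (hFIN : Pool.Agent.V5helper56.DU.S_FIN) (hKER : S_KER) (hSPL : S_SPL) (hCNT : S_CNT) (hSUB : S_SUB)
    (hNRM : S_NRM) : S_NOO := by
  classical
  intro K L _ _ _ _ _ _ p hp hinf hcard hcl σ hσ ι _ P hR hsplit hin u hu hu1 hu2
  haveI : Fact p.Prime := ⟨hp⟩
  obtain ⟨hfinL, hrL⟩ := hFIN p hp L
  obtain ⟨hfinK, hrK⟩ := hFIN p hp K
  obtain ⟨hker, hrk⟩ := hKER K L p σ hσ
  have hspl := hSPL K L p hp hsplit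
  have hinfc := card_inf hp hinf hcard
  haveI := hfinL
  have hrank : finrank ℤ (Additive (PU p L)) + 1 =
      p * (finrank ℤ (Additive (dP p σ).ker) + 1) := by
    rw [hrk, hrL, hrK, hinfc, hspl, hcard]
    ring
  obtain ⟨h1, h2⟩ := abs_herb (sP p σ) (dP p σ) (nP p σ) (by
    intro x
    apply Subtype.ext
    apply Units.ext
    rw [sP_iter]
    have h : σ ^ p = 1 := by rw [← hcard]; exact pow_card_eq_one'
    rw [h]
    rfl) (fun _ => rfl) (fun _ => rfl) hrank
  have h3 := hCNT K L p hp hcard hcl σ hσ ι P hR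
  -- the primes below
  have hQm : ∀ j, ((P j).under (𝓞 K)).IsMaximal := fun j => by
    haveI := hR.max j
    exact Ideal.IsMaximal.under (𝓞 K) (P j)
  have hpQ : ∀ j, (p : 𝓞 K) ∉ (P j).under (𝓞 K) := fun j h => by
    apply hR.away j
    rw [Ideal.mem_comap, map_natCast] at h
    exact h
  choose u' hu' using fun i => exists_PU hp (hu i)
  choose H hH using fun j => hSUB K p hp ((P j).under (𝓞 K)) (hQm j) (hpQ j)
  have hu1' : ∀ j, u' j ∉ H j := by
    intro j h
    obtain ⟨z, hz⟩ := (isPow_iff (hQm j) (hpQ j) (u j) (u' j) (hu' j)).1 ((hH j _).1 h)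
    exact hu1 j z hz
  have hu2' : ∀ i j, j ≠ i → u' i ∈ H j := by
    intro i j hij
    exact (hH j _).2 ((isPow_iff (hQm j) (hpQ j) (u i) (u' i) (hu' i)).2 (hu2 i j hij))
  let w : (ι → Fin p) → PU p K := fun a => ∏ i, u' i ^ (a i : ℕ)
  have he : ∀ v, eP K L p v ∈ (dP p σ).ker := fun v => (hker _).2 ⟨v, rfl⟩
  have hinj : Function.Injective (fun a : ι → Fin p =>
      (QuotientGroup.mk ⟨eP K L p (w a), he _⟩ :
        (dP p σ).ker ⧸ ((nP p σ).range.subgroupOf (dP p σ).ker))) := by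
    intro a b hab
    have h4 : (⟨eP K L p (w a), he _⟩ : (dP p σ).ker)⁻¹ * ⟨eP K L p (w b), he _⟩ ∈
        (nP p σ).range.subgroupOf (dP p σ).ker := QuotientGroup.eq.1 hab
    have h5 : (eP K L p (w a))⁻¹ * eP K L p (w b) ∈ (nP p σ).range := Subgroup.mem_subgroupOf.1 h4
    obtain ⟨y, hy⟩ := h5
    have h6 : nP p σ y = eP K L p ((w a)⁻¹ * w b) := by rw [hy, map_mul, map_inv]
    funext j
    have h7 : (w a)⁻¹ * w b ∈ H j := by
      refine (hH j _).2 (hNRM K L p hp hcard σ hσ (P j) (hR.max j) (hR.away j) (hin j) y _ ?_)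
      rw [h6]
      rfl
    have h8 : ∀ c : ι → Fin p, (QuotientGroup.mk (w c) : PU p K ⧸ H j) =
        (QuotientGroup.mk (u' j)) ^ (c j : ℕ) := by
      intro c
      have h9 : (QuotientGroup.mk' (H j)) (w c) =
          ∏ i, ((QuotientGroup.mk' (H j)) (u' i)) ^ (c i : ℕ) := by
        rw [map_prod]
        exact Finset.prod_congr rfl fun i _ => map_pow _ _ _
      show (QuotientGroup.mk' (H j)) (w c) = _
      rw [h9, Finset.prod_eq_single j]
      · rfl
      · intro i _ hij
        have h10 : (QuotientGroup.mk' (H j)) (u' i) = 1 :=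
          (QuotientGroup.eq_one_iff _).2 (hu2' i j (Ne.symm hij))
        rw [h10, one_pow]
      · intro h; exact absurd (Finset.mem_univ j) h
    have h11 : (QuotientGroup.mk (u' j) : PU p K ⧸ H j) ^ (a j : ℕ) =
        (QuotientGroup.mk (u' j)) ^ (b j : ℕ) := by
      rw [← h8, ← h8]
      exact QuotientGroup.eq.2 h7
    have hord : orderOf (QuotientGroup.mk (u' j) : PU p K ⧸ H j) = p := by
      refine orderOf_eq_prime ?_ (fun h => hu1' j ((QuotientGroup.eq_one_iff _).1 h))
      rw [← QuotientGroup.mk_pow]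
      refine (QuotientGroup.eq_one_iff _).2 ((hH j _).2 ⟨0, u j ^ p, u j, ?_, ?_⟩)
      · have : (((u' j ^ p : PU p K) : Kˣ) : K) = ((u' j : Kˣ) : K) ^ p := rfl
        rw [this, hu' j]
        simp
      · rw [sub_self]
        exact Ideal.zero_mem _
    have h12 := pow_injOn_Iio_orderOf (x := (QuotientGroup.mk (u' j) : PU p K ⧸ H j))
      (by rw [hord]; exact (a j).2) (by rw [hord]; exact (b j).2) h11
    exact Fin.ext h12
  have h13 : (nP p σ).range.relIndex (dP p σ).ker ≠ 0 := h2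
  have h14 : p ^ Fintype.card ι ≤ (nP p σ).range.relIndex (dP p σ).ker := by
    rw [Subgroup.relIndex, Subgroup.index_eq_card] at h13 ⊢
    haveI : Finite ((dP p σ).ker ⧸ ((nP p σ).range.subgroupOf (dP p σ).ker)) :=
      Nat.finite_of_card_ne_zero h13
    have h15 := Nat.card_le_card_of_injective _ hinj
    simpa using h15
  have h16 : p * p ^ Fintype.card ι ≤ p ^ Fintype.card ι := (Nat.mul_le_mul_left p h14).trans (h1.trans h3)
  have h17 : 0 < p ^ Fintype.card ι := pow_pos hp.pos _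
  have h18 := hp.two_le
  nlinarith

end Pool.Agent.V5helper7.DU
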